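import Mathlib

/-!
# Dependence on p of the Korenblum extremal function

For every `p > 0` and every integer `k ≥ 1` one has `F_{p/k}(c) ≥ F_p(c)` for all `c`: if
`(f, g)` is admissible for the exponent `p`, then `(f ^ k, g ^ k)` is admissible for the exponent
`p / k` and has the same energies.  Since `κ_p < 1` for all `p`, the proposed strict inequality
`F_{p₁}(c) < F_{p₂}(c)` fails for all pairs `(p / k, p)`, `k ≥ 2`, and all `c`.
-/

open MeasureTheory Set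

namespace Pool.Agent.Results.MP_ce4856_an.IntegerRatio

/-- The open unit disc. -/
def Disc : Set ℂ := {z | ‖z‖ < 1}

/-- The Bergman space `A^p` of the disc: `f` is analytic in the disc and `|f| ^ p` is integrable
there (with respect to area). -/
def InA (p : ℝ) (f : ℂ → ℂ) : Prop :=
  DifferentiableOn ℂ f Disc ∧ IntegrableOn (fun z => ‖f z‖ ^ p) Disc volume

/-- The (quasi-)norm `‖f‖_p = ((1 / π) ∫_𝔻 |f| ^ p dA) ^ (1 / p)`. -/
noncomputable def nrm (p : ℝ) (f : ℂ → ℂ) : ℝ :=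
  ((1 / Real.pi) * ∫ z in Disc, ‖f z‖ ^ p) ^ (1 / p)

/-- The property in the definition of the Korenblum constant: for all `f, g ∈ A^p`, if
`|f| ≤ |g|` on the annulus `c < |z| < 1` then `‖f‖_p ≤ ‖g‖_p`. -/
def KorProp (p c : ℝ) : Prop :=
  ∀ f g : ℂ → ℂ, InA p f → InA p g → (∀ z : ℂ, c < ‖z‖ → ‖z‖ < 1 → ‖f z‖ ≤ ‖g z‖) →
    nrm p f ≤ nrm p g

/-- The Korenblum constant `κ_p` (it is `0` if no `c ∈ (0, 1)` has the property: the supremum of
the empty set of reals is `0` in Lean). -/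
noncomputable def kappa (p : ℝ) : ℝ := sSup {c : ℝ | 0 < c ∧ c < 1 ∧ KorProp p c}

/-- The set `FG_p(c)` of admissible pairs. -/
def FG (p c : ℝ) : Set ((ℂ → ℂ) × (ℂ → ℂ)) :=
  {q | InA p q.1 ∧ InA p q.2 ∧ nrm p q.1 ≤ 1 ∧ nrm p q.2 ≤ 1 ∧
    ∀ z : ℂ, c ≤ ‖z‖ → ‖z‖ < 1 → ‖q.1 z‖ ≤ ‖q.2 z‖}

/-- The extremal function `F_p(c) = sup (‖f‖_p ^ p - ‖g‖_p ^ p)` over `FG_p(c)`. -/
noncomputable def F (p c : ℝ) : ℝ :=
  sSup ((fun q : (ℂ → ℂ) × (ℂ → ℂ) => nrm p q.1 ^ p - nrm p q.2 ^ p) '' FG p c)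

lemma disc_eq : Disc = Metric.ball (0 : ℂ) 1 := by
  ext z; simp [Disc]

lemma disc_meas : MeasurableSet Disc := by
  rw [disc_eq]; exact Metric.isOpen_ball.measurableSet

lemma integral_nonneg' (p : ℝ) (f : ℂ → ℂ) :
    0 ≤ (1 / Real.pi) * ∫ z in Disc, ‖f z‖ ^ p := by
  apply mul_nonneg (by positivity)
  exact integral_nonneg (fun z => by positivity)

lemma nrm_nonneg (p : ℝ) (f : ℂ → ℂ) : 0 ≤ nrm p f :=
  Real.rpow_nonneg (integral_nonneg' p f) _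

lemma nrm_rpow {p : ℝ} (hp : 0 < p) (f : ℂ → ℂ) :
    nrm p f ^ p = (1 / Real.pi) * ∫ z in Disc, ‖f z‖ ^ p := by
  unfold nrm
  rw [← Real.rpow_mul (integral_nonneg' p f), one_div_mul_cancel hp.ne', Real.rpow_one]

lemma norm_pow_rpow {p : ℝ} {k : ℕ} (hk : 1 ≤ k) (w : ℂ) :
    ‖w ^ k‖ ^ (p / k) = ‖w‖ ^ p := by
  have hk' : (k : ℝ) ≠ 0 := by
    have : 0 < k := hk
    exact_mod_cast this.ne'
  rw [norm_pow, ← Real.rpow_natCast, ← Real.rpow_mul (norm_nonneg w)]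
  congr 1
  field_simp

lemma inA_pow {p : ℝ} {k : ℕ} (hk : 1 ≤ k) {f : ℂ → ℂ} (hf : InA p f) :
    InA (p / k) (fun z => f z ^ k) := by
  refine ⟨hf.1.pow k, ?_⟩
  have : (fun z => ‖f z ^ k‖ ^ (p / k)) = fun z => ‖f z‖ ^ p := by
    funext z; exact norm_pow_rpow hk (f z)
  rw [this]
  exact hf.2

lemma nrm_pow_rpow {p : ℝ} (hp : 0 < p) {k : ℕ} (hk : 1 ≤ k) (f : ℂ → ℂ) :
    nrm (p / k) (fun z => f z ^ k) ^ (p / k) = nrm p f ^ p := by
  have hk' : (0 : ℝ) < k := by exact_mod_cast hk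
  rw [nrm_rpow (div_pos hp hk'), nrm_rpow hp]
  congr 1
  congr 1
  funext z
  exact norm_pow_rpow hk (f z)

lemma le_iff_rpow {p : ℝ} (hp : 0 < p) (f g : ℂ → ℂ) :
    nrm p f ≤ nrm p g ↔ nrm p f ^ p ≤ nrm p g ^ p :=
  (Real.rpow_le_rpow_iff (nrm_nonneg p f) (nrm_nonneg p g) hp).symm

lemma le_one_iff {p : ℝ} (hp : 0 < p) (f : ℂ → ℂ) : nrm p f ≤ 1 ↔ nrm p f ^ p ≤ 1 := by
  have := Real.rpow_le_rpow_iff (nrm_nonneg p f) zero_le_one hp
  rw [Real.one_rpow] at this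
  exact this.symm

lemma FG_pow {p : ℝ} (hp : 0 < p) {k : ℕ} (hk : 1 ≤ k) {c : ℝ} {q : (ℂ → ℂ) × (ℂ → ℂ)}
    (hq : q ∈ FG p c) : ((fun z => q.1 z ^ k, fun z => q.2 z ^ k) : (ℂ → ℂ) × (ℂ → ℂ)) ∈
      FG (p / k) c := by
  obtain ⟨h1, h2, h3, h4, h5⟩ := hq
  have hk' : (0 : ℝ) < k := by exact_mod_cast hk
  have hpk : 0 < p / k := div_pos hp hk'
  refine ⟨inA_pow hk h1, inA_pow hk h2, ?_, ?_, ?_⟩
  · rw [le_one_iff hpk]
    simp only [nrm_pow_rpow hp hk]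
    exact (le_one_iff hp _).1 h3
  · rw [le_one_iff hpk]
    simp only [nrm_pow_rpow hp hk]
    exact (le_one_iff hp _).1 h4
  · intro z hz hz'
    simp only [norm_pow]
    exact pow_le_pow_left₀ (norm_nonneg _) (h5 z hz hz') k

lemma bddAbove_F {p : ℝ} (hp : 0 < p) (c : ℝ) :
    BddAbove ((fun q : (ℂ → ℂ) × (ℂ → ℂ) => nrm p q.1 ^ p - nrm p q.2 ^ p) '' FG p c) := by
  refine ⟨1, ?_⟩
  rintro _ ⟨q, hq, rfl⟩
  have h1 := (le_one_iff hp q.1).1 hq.2.2.1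
  have h2 : 0 ≤ nrm p q.2 ^ p := Real.rpow_nonneg (nrm_nonneg p q.2) _
  simp only
  linarith

lemma zero_mem_FG {p : ℝ} (hp : 0 < p) (c : ℝ) :
    ((fun _ => 0, fun _ => 0) : (ℂ → ℂ) × (ℂ → ℂ)) ∈ FG p c := by
  have h0 : InA p (fun _ => (0 : ℂ)) := by
    refine ⟨differentiableOn_const _, ?_⟩
    simp [Real.zero_rpow hp.ne']
  have hn : nrm p (fun _ => (0 : ℂ)) ≤ 1 := by
    rw [le_one_iff hp, nrm_rpow hp]
    simp [Real.zero_rpow hp.ne']
  exact ⟨h0, h0, hn, hn, fun z _ _ => le_refl _⟩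

/-- `F_{p/k} ≥ F_p`. -/
lemma F_le {p : ℝ} (hp : 0 < p) {k : ℕ} (hk : 1 ≤ k) (c : ℝ) : F p c ≤ F (p / k) c := by
  have hk' : (0 : ℝ) < k := by exact_mod_cast hk
  have hpk : 0 < p / k := div_pos hp hk'
  apply csSup_le
  · exact ⟨_, ⟨_, zero_mem_FG hp c, rfl⟩⟩
  · rintro _ ⟨q, hq, rfl⟩
    apply le_csSup (bddAbove_F hpk c)
    refine ⟨_, FG_pow hp hk hq, ?_⟩
    simp only [nrm_pow_rpow hp hk]

lemma korProp_pow {p : ℝ} (hp : 0 < p) {k : ℕ} (hk : 1 ≤ k) {c : ℝ}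
    (h : KorProp (p / k) c) : KorProp p c := by
  intro f g hf hg hfg
  have hk' : (0 : ℝ) < k := by exact_mod_cast hk
  have hpk : 0 < p / k := div_pos hp hk'
  have := h (fun z => f z ^ k) (fun z => g z ^ k) (inA_pow hk hf) (inA_pow hk hg) (by
    intro z hz hz'
    simp only [norm_pow]
    exact pow_le_pow_left₀ (norm_nonneg _) (hfg z hz hz') k)
  rw [le_iff_rpow hpk, nrm_pow_rpow hp hk, nrm_pow_rpow hp hk] at this
  exact (le_iff_rpow hp f g).2 this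

lemma kappa_set_bdd (p : ℝ) : BddAbove {c : ℝ | 0 < c ∧ c < 1 ∧ KorProp p c} :=
  ⟨1, fun _ hc => hc.2.1.le⟩

lemma kappa_le {p : ℝ} (hp : 0 < p) {k : ℕ} (hk : 1 ≤ k) : kappa (p / k) ≤ kappa p := by
  unfold kappa
  rcases Set.eq_empty_or_nonempty {c : ℝ | 0 < c ∧ c < 1 ∧ KorProp (p / k) c} with h | h
  · rw [h, Real.sSup_empty]
    exact Real.sSup_nonneg (fun c hc => hc.1.le)
  · exact csSup_le_csSup (kappa_set_bdd p) h
      (fun c hc => ⟨hc.1, hc.2.1, korProp_pow hp hk hc.2.2⟩)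

lemma volume_disc : volume Disc = ENNReal.ofReal Real.pi := by
  rw [disc_eq, Complex.volume_ball, ← NNReal.coe_real_pi, ENNReal.ofReal_coe_nnreal]
  simp

lemma inA_const (p : ℝ) (a : ℂ) : InA p (fun _ => a) := by
  refine ⟨differentiableOn_const _, ?_⟩
  have hfin : IsFiniteMeasure (volume.restrict Disc) :=
    ⟨by rw [Measure.restrict_apply_univ, volume_disc]; exact ENNReal.ofReal_lt_top⟩
  exact integrable_const _

lemma nrm_const {p : ℝ} (hp : 0 < p) (a : ℂ) : nrm p (fun _ => a) ^ p = ‖a‖ ^ p := by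
  rw [nrm_rpow hp]
  rw [setIntegral_const, Measure.real, volume_disc, ENNReal.toReal_ofReal Real.pi_pos.le,
    smul_eq_mul, ← mul_assoc, one_div_mul_cancel Real.pi_ne_zero, one_mul]

lemma inA_id {p : ℝ} (hp : 0 < p) : InA p (fun z => z) := by
  refine ⟨differentiableOn_id, ?_⟩
  refine Integrable.mono' (g := fun _ => (1 : ℝ)) ?_ ?_ ?_
  · exact (inA_const p 1).2.congr_fun_ae (by simp) |>.mono_set (le_refl _)
  · have : Continuous (fun z : ℂ => ‖z‖ ^ p) :=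
      continuous_norm.rpow_const (fun _ => Or.inr hp.le)
    exact this.aestronglyMeasurable
  · rw [ae_restrict_iff' disc_meas]
    refine Filter.Eventually.of_forall (fun z hz => ?_)
    have hz' : ‖z‖ < 1 := hz
    rw [Real.norm_of_nonneg (by positivity)]
    exact Real.rpow_le_one (norm_nonneg _) hz'.le hp.le

lemma nrm_id_lt {p : ℝ} (hp : 0 < p) : nrm p (fun z => z) ^ p < 1 := by
  have h1 : nrm p (fun _ => (1 : ℂ)) ^ p = 1 := by
    rw [nrm_const hp]; simp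
  rw [← h1, nrm_rpow hp, nrm_rpow hp]
  apply mul_lt_mul_of_pos_left _ (by positivity)
  have hlt : 0 < ∫ z in Disc, (‖(1 : ℂ)‖ ^ p - ‖z‖ ^ p) := by
    rw [setIntegral_pos_iff_support_of_nonneg_ae]
    · have : Function.support (fun z : ℂ => ‖(1 : ℂ)‖ ^ p - ‖z‖ ^ p) ∩ Disc = Disc := by
        apply Set.inter_eq_right.2
        intro z hz
        have hz' : ‖z‖ < 1 := hz
        have := Real.rpow_lt_one (norm_nonneg z) hz' hp
        simp only [Function.mem_support, norm_one, Real.one_rpow]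
        linarith
      rw [this, volume_disc]
      simp [Real.pi_pos]
    · rw [Filter.EventuallyLE, ae_restrict_iff' disc_meas]
      refine Filter.Eventually.of_forall (fun z hz => ?_)
      have hz' : ‖z‖ < 1 := hz
      have := Real.rpow_le_one (norm_nonneg z) hz'.le hp.le
      simp only [norm_one, Real.one_rpow, Pi.zero_apply]
      linarith
    · exact (inA_const p 1).2.sub (inA_id hp).2
  rw [integral_sub (inA_const p 1).2 (inA_id hp).2] at hlt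
  linarith

/-- `κ_p < 1` for every `p > 0`. -/
lemma kappa_lt_one {p : ℝ} (hp : 0 < p) : kappa p < 1 := by
  set I := nrm p (fun z => z) with hI
  have hI1 : I < 1 := by
    by_contra hcon
    push Not at hcon
    have := Real.one_le_rpow hcon hp.le
    have := nrm_id_lt hp
    linarith
  have hI0 : 0 ≤ I := nrm_nonneg p _
  refine lt_of_le_of_lt (Real.sSup_le ?_ hI0) hI1
  rintro c ⟨hc0, hc1, hc⟩
  by_contra hcon
  push Not at hcon
  have h := hc (fun _ => (c : ℂ)) (fun z => z) (inA_const p c) (inA_id hp) (by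
    intro z hz _
    simp only [Complex.norm_real, Real.norm_of_nonneg hc0.le]
    exact hz.le)
  rw [le_iff_rpow hp, nrm_const hp, Complex.norm_real, Real.norm_of_nonneg hc0.le] at h
  have := Real.rpow_lt_rpow hI0 hcon hp
  linarith

/-- **The extremal function does not increase with the exponent.**
(1) For all `p > 0`, all integers `k ≥ 1` and all `c`, `F_p(c) ≤ F_{p/k}(c)` and `κ_{p/k} ≤ κ_p`.
(2) `κ_p < 1` for all `p > 0`, so that `(max (κ_{p/k}) (κ_p), 1)` is a nonempty interval.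
(3) Hence the answer to Q1 is negative: the strict inequality `F_{p₁}(c) < F_{p₂}(c)` fails for
all `p₂ > 0`, all `p₁ = p₂ / k` with `k ≥ 2`, and all `c`; in particular it is not true that it
holds for all `0 < p₁ < p₂` and all `c ∈ (max (κ_{p₁}) (κ_{p₂}), 1)`. -/
theorem result :
    (∀ p : ℝ, 0 < p → ∀ k : ℕ, 1 ≤ k →
      kappa (p / k) ≤ kappa p ∧ ∀ c : ℝ, F p c ≤ F (p / k) c) ∧
    (∀ p : ℝ, 0 < p → kappa p < 1) ∧
    (∀ p₂ : ℝ, 0 < p₂ → ∃ p₁ : ℝ, 0 < p₁ ∧ p₁ < p₂ ∧ ∃ c : ℝ, max (kappa p₁) (kappa p₂) < c ∧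
      c < 1 ∧ F p₁ c ≥ F p₂ c) ∧
    ¬ (∀ p₁ p₂ : ℝ, 0 < p₁ → p₁ < p₂ → ∀ c : ℝ, max (kappa p₁) (kappa p₂) < c → c < 1 →
      F p₁ c < F p₂ c) := by
  have hA : ∀ p₂ : ℝ, 0 < p₂ → ∃ p₁ : ℝ, 0 < p₁ ∧ p₁ < p₂ ∧ ∃ c : ℝ,
      max (kappa p₁) (kappa p₂) < c ∧ c < 1 ∧ F p₁ c ≥ F p₂ c := by
    intro p hp
    have hp2 : (0 : ℝ) < p / (2 : ℕ) := by positivity
    obtain ⟨c, hc, hc'⟩ := exists_between (max_lt (kappa_lt_one hp2) (kappa_lt_one hp))
    refine ⟨p / (2 : ℕ), hp2, ?_, c, hc, hc', F_le hp (by norm_num) c⟩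
    push_cast
    linarith
  refine ⟨fun p hp k hk => ⟨kappa_le hp hk, fun c => F_le hp hk c⟩,
    fun p hp => kappa_lt_one hp, hA, ?_⟩
  intro h
  obtain ⟨p₁, h1, h2, c, hc, hc', hF⟩ := hA 1 one_pos
  exact absurd (h p₁ 1 h1 h2 c hc hc') (not_lt.2 hF)

end Pool.Agent.Results.MP_ce4856_an.IntegerRatio
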